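import Pool.Agent.HTE.F1

set_option autoImplicit false

namespace Pool.Agent.Results.MP_c359ba_co.EulerTight

open Pool.Agent.HTE

theorem two_colour {V : Type} {G : SimpleGraph V} (hc : G.Colorable 2) :
    ∃ f : V → Bool, ∀ u v, G.Adj u v → f u ≠ f v := by
  obtain ⟨c⟩ := hc
  refine ⟨fun v => decide (c v = 0), fun u v huv h => ?_⟩
  have h1 := c.valid huv
  have h2 : (c u = 0) ↔ (c v = 0) := by simpa using h
  apply h1
  by_cases h0 : c u = 0
  · rw [h0, h2.1 h0]
  · have h0' : c v ≠ 0 := fun h' => h0 (h2.2 h')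
    rw [Fin.eq_one_of_ne_zero _ h0, Fin.eq_one_of_ne_zero _ h0']

/-- **Strong Hanani-Tutte on all closed surfaces for the graphs that meet Euler's bound.** Let `G`
be a finite connected simple graph with at least three vertices. If `G` has an embedding `N` on an
orientable surface whose genus is the least one allowed by Euler's bound `|E| ≤ 3 (|V| - χ)`
(or `|E| ≤ 2 (|V| - χ)` for bipartite `G`), then on every orientable surface an independently even
drawing of `G` exists only if an embedding exists. The same holds for nonorientable surfaces. -/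
theorem result (V : Type) [Fintype V] (G : SimpleGraph V) (hG : G.Connected)
    (h3 : 3 ≤ Fintype.card V) (N : Drawing G) (hN : N.IsEmbedding) :
    (N.Orientable →
      ((Nat.card G.edgeSet : ℤ) > 3 * ((Fintype.card V : ℤ) - (N.chi + 2)) ∨
        G.Colorable 2 ∧ (Nat.card G.edgeSet : ℤ) > 2 * ((Fintype.card V : ℤ) - (N.chi + 2))) →
      ∀ g : ℕ, (∃ M : Drawing G, M.OnOrientable g ∧ M.IndependentlyEven) →
        ∃ M : Drawing G, M.OnOrientable g ∧ M.IsEmbedding) ∧
    (¬ N.Orientable →
      ((Nat.card G.edgeSet : ℤ) > 3 * ((Fintype.card V : ℤ) - (N.chi + 1)) ∨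
        G.Colorable 2 ∧ (Nat.card G.edgeSet : ℤ) > 2 * ((Fintype.card V : ℤ) - (N.chi + 1))) →
      ∀ k : ℕ, 1 ≤ k → (∃ M : Drawing G, M.OnNonorientable k ∧ M.IndependentlyEven) →
        ∃ M : Drawing G, M.OnNonorientable k ∧ M.IsEmbedding) := by
  refine ⟨fun hO ht g => ?_, fun hO ht k _ => ?_⟩
  · refine ht_orientable hG h3 N hN hO ?_ g
    rcases ht with h | ⟨hc, h⟩
    · exact Or.inl (by omega)
    · exact Or.inr ⟨two_colour hc, by omega⟩
  · refine ht_nonorientable hG h3 N hN hO ?_ k
    rcases ht with h | ⟨hc, h⟩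
    · exact Or.inl (by omega)
    · exact Or.inr ⟨two_colour hc, by omega⟩

end Pool.Agent.Results.MP_c359ba_co.EulerTight
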