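import Pool.Agent.MP_c359ba_co.Final

set_option autoImplicit false

namespace Pool.Agent.Results.MP_c359ba_co.GenusThree

open Pool.Agent.MP_c359ba_co

/-- The strong Hanani-Tutte property fails on the closed orientable surface of genus three. -/
theorem result : ¬ StrongHananiTutte 3 := not_strong_three

end Pool.Agent.Results.MP_c359ba_co.GenusThree
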