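import Pool.Agent.NHT.Core

/-!
# MP_c359ba_co: the strong Hanani–Tutte property fails on almost all nonorientable surfaces

For every `k ≥ 6 * 10^10` there is a finite connected simple graph that has a drawing on the closed nonorientable
surface with `k` crosscaps in which every two independent edges cross an even number of times, but no embedding
on this surface.

Definitions: `Pool/Agent/HTE/Defs.lean` (maps, drawings), `Pool/Agent/NHT/Graph.lean` (`StrongHananiTutteN`).
-/

namespace Pool.Agent.Results.MP_c359ba_co.NonorientableFails

theorem result (k : ℕ) (hk : 6 * 10 ^ 10 ≤ k) : ¬ Pool.Agent.NHT.StrongHananiTutteN k :=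
  Pool.Agent.NHT.main k hk

end Pool.Agent.Results.MP_c359ba_co.NonorientableFails
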