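import Pool.Agent.HTE.F2

set_option autoImplicit false

namespace Pool.Agent.Results.MP_c359ba_co.Triangulations

open Pool.Agent.HTE

/-- **Strong Hanani-Tutte for triangulations.** Let `G` be a finite connected simple graph with at
least three vertices which has a drawing on a closed surface (orientable or not) of Euler
characteristic `χ` in which every two independent edges cross an even number of times. If `G` has
at least `3 (|V| - χ)` edges, then `G` can be embedded on the same surface (the surface with the
same Euler characteristic and the same orientability). -/
theorem result (V : Type) [Fintype V] (G : SimpleGraph V) (hG : G.Connected)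
    (h3 : 3 ≤ Fintype.card V) (M : Drawing G) (hM : M.IndependentlyEven)
    (hE : 3 * ((Fintype.card V : ℤ) - M.chi) ≤ (Nat.card G.edgeSet : ℤ)) :
    ∃ N : Drawing G, N.IsEmbedding ∧ N.chi = M.chi ∧ (N.Orientable ↔ M.Orientable) :=
  z2_triangulation hG h3 M hM hE

end Pool.Agent.Results.MP_c359ba_co.Triangulations
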